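import Mathlib

/-!
# Counting matrices over a finite field
-/

namespace Q12.MatSum

open Module

universe u

variable {F : Type u} [Field F] [Fintype F] [DecidableEq F] {n : ℕ}

/-- `#{A : m A s = 0} = q ^ (n ^ 2 - rank m * rank s)` -/
theorem card_annihilate (m s : Matrix (Fin n) (Fin n) F) :
    Fintype.card {A : Matrix (Fin n) (Fin n) F // m * A * s = 0} *
      Fintype.card F ^ (m.rank * s.rank) = Fintype.card F ^ (n * n) := by
  classical
  let V := Fin n → F
  let fm : V →ₗ[F] V := m.mulVecLin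
  let fs : V →ₗ[F] V := s.mulVecLin
  let W := LinearMap.range fs
  let Q := V ⧸ LinearMap.ker fm
  let Φ : (V →ₗ[F] V) →ₗ[F] (W →ₗ[F] Q) :=
    { toFun := fun A => (LinearMap.ker fm).mkQ ∘ₗ A ∘ₗ W.subtype
      map_add' := fun A B => by ext; simp
      map_smul' := fun c A => by ext; simp }
  have hΦ : Function.Surjective Φ := by
    intro g
    obtain ⟨g', hg'⟩ := g.exists_extend
    obtain ⟨j, hj⟩ := (LinearMap.ker fm).mkQ.exists_rightInverse_of_surjective
      (Submodule.range_mkQ _)
    refine ⟨j ∘ₗ g', ?_⟩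
    apply LinearMap.ext
    intro w
    have h1 := LinearMap.congr_fun hj (g' w)
    have h2 := LinearMap.congr_fun hg' w
    simp only [LinearMap.comp_apply, LinearMap.id_apply, Submodule.subtype_apply] at h1 h2
    change (LinearMap.ker fm).mkQ (j (g' w)) = g w
    rw [h1]
    exact h2
  have hmem : ∀ A : Matrix (Fin n) (Fin n) F, m * A * s = 0 ↔ Matrix.toLin' A ∈ LinearMap.ker Φ := by
    intro A
    rw [LinearMap.mem_ker]
    constructor
    · intro h
      apply LinearMap.ext
      rintro ⟨w, v, rfl⟩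
      change (LinearMap.ker fm).mkQ (Matrix.toLin' A (fs v)) = 0
      rw [Submodule.mkQ_apply, Submodule.Quotient.mk_eq_zero, LinearMap.mem_ker]
      change m.mulVec (A.mulVec (s.mulVec v)) = 0
      rw [Matrix.mulVec_mulVec, Matrix.mulVec_mulVec, h, Matrix.zero_mulVec]
    · intro h
      have h1 : ∀ v, (m * A * s).mulVec v = 0 := by
        intro v
        have h2 := LinearMap.congr_fun h ⟨fs v, v, rfl⟩
        change (LinearMap.ker fm).mkQ (Matrix.toLin' A (fs v)) = 0 at h2
        rw [Submodule.mkQ_apply, Submodule.Quotient.mk_eq_zero, LinearMap.mem_ker] at h2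
        change m.mulVec (A.mulVec (s.mulVec v)) = 0 at h2
        rwa [Matrix.mulVec_mulVec, Matrix.mulVec_mulVec] at h2
      apply Matrix.toLin'.injective
      apply LinearMap.ext
      intro v
      rw [Matrix.toLin'_apply, h1, map_zero, LinearMap.zero_apply]
  have hcard : Fintype.card {A : Matrix (Fin n) (Fin n) F // m * A * s = 0} =
      Nat.card (LinearMap.ker Φ) := by
    rw [← Nat.card_eq_fintype_card]
    exact Nat.card_congr (Matrix.toLin'.toEquiv.subtypeEquiv hmem)
  have hfin : finrank F (LinearMap.ker Φ) + m.rank * s.rank = n * n := by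
    have h1 := LinearMap.finrank_range_add_finrank_ker Φ
    rw [LinearMap.range_eq_top.2 hΦ, finrank_top, Module.finrank_linearMap,
      Module.finrank_linearMap] at h1
    have h2 : finrank F Q = m.rank := by
      have h3 := (LinearMap.ker fm).finrank_quotient_add_finrank
      have h4 := LinearMap.finrank_range_add_finrank_ker fm
      have h5 : finrank F (LinearMap.range fm) = m.rank := rfl
      change finrank F (V ⧸ LinearMap.ker fm) = _
      omega
    have h3 : finrank F W = s.rank := rfl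
    have h4 : finrank F V = n := by simp [V]
    rw [h2, h3, h4] at h1
    rw [← h1]; ring
  have h1 : Nat.card (LinearMap.ker Φ) = Fintype.card F ^ finrank F (LinearMap.ker Φ) := by
    rw [Module.natCard_eq_pow_finrank (K := F), Nat.card_eq_fintype_card]
  rw [hcard, h1, ← pow_add, hfin]

omit [DecidableEq F] in
/-- there are at most `q ^ (2 n k)` matrices of rank at most `k` -/
theorem card_rank_le (k : ℕ) :
    Fintype.card {s : Matrix (Fin n) (Fin n) F // s.rank ≤ k} ≤ Fintype.card F ^ (2 * n * k) := by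
  classical
  have key : ∀ s : Matrix (Fin n) (Fin n) F, s.rank ≤ k →
      ∃ (U : Matrix (Fin n) (Fin k) F) (V : Matrix (Fin k) (Fin n) F), s = U * V := by
    intro s hs
    let W := LinearMap.range s.mulVecLin
    let b := Module.finBasis F W
    have hW : finrank F W = s.rank := rfl
    -- a surjection `F ^ k → W`
    let P : (Fin k → F) →ₗ[F] W :=
      ∑ i : Fin (finrank F W), (LinearMap.proj (Fin.castLE (hW ▸ hs) i)).smulRight (b i)
    have hP : Function.Surjective P := by
      intro w
      refine ⟨fun j => if h : j.1 < finrank F W then b.repr w ⟨j.1, h⟩ else 0, ?_⟩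
      conv_rhs => rw [← b.sum_repr w]
      simp [P]
    obtain ⟨j, hj⟩ := P.exists_rightInverse_of_surjective (LinearMap.range_eq_top.2 hP)
    let f : (Fin n → F) →ₗ[F] W := s.mulVecLin.rangeRestrict
    refine ⟨LinearMap.toMatrix' (W.subtype ∘ₗ P), LinearMap.toMatrix' (j ∘ₗ f), ?_⟩
    rw [← LinearMap.toMatrix'_comp]
    apply Matrix.toLin'.injective
    rw [Matrix.toLin'_toMatrix']
    apply LinearMap.ext
    intro v
    have h1 := LinearMap.congr_fun hj (f v)
    simp only [LinearMap.comp_apply, LinearMap.id_apply] at h1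
    simp only [LinearMap.comp_apply, h1, Submodule.subtype_apply]
    rfl
  let g : Matrix (Fin n) (Fin k) F × Matrix (Fin k) (Fin n) F → Matrix (Fin n) (Fin n) F :=
    fun p => p.1 * p.2
  have h1 : Fintype.card {s : Matrix (Fin n) (Fin n) F // s.rank ≤ k} ≤
      Fintype.card (Matrix (Fin n) (Fin k) F × Matrix (Fin k) (Fin n) F) := by
    choose! U V hUV using key
    refine Fintype.card_le_of_injective (fun s => (U s.1, V s.1)) ?_
    intro s t hst
    simp only [Prod.mk.injEq] at hst
    apply Subtype.ext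
    rw [hUV s.1 s.2, hUV t.1 t.2, hst.1, hst.2]
  refine h1.trans (le_of_eq ?_)
  rw [Fintype.card_prod]
  have h2 : ∀ a b : ℕ, Fintype.card (Matrix (Fin a) (Fin b) F) = Fintype.card F ^ (a * b) := by
    intro a b
    change Fintype.card (Fin a → Fin b → F) = _
    rw [Fintype.card_fun, Fintype.card_fun, Fintype.card_fin, Fintype.card_fin, ← pow_mul,
      mul_comm b a]
  rw [h2, h2, ← pow_add]
  congr 1
  ring

omit [Field F] [DecidableEq F] in
theorem card_matrix : Fintype.card (Matrix (Fin n) (Fin n) F) = Fintype.card F ^ (n * n) := by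
  change Fintype.card (Fin n → Fin n → F) = _
  rw [Fintype.card_fun, Fintype.card_fun, Fintype.card_fin, ← pow_mul]

/-- `|M_n(F)| ≤ 4 |GL_n(F)|` -/
theorem card_le_four_mul_card_GL :
    Fintype.card (Matrix (Fin n) (Fin n) F) ≤ 4 * Fintype.card (GL (Fin n) F) := by
  classical
  have hq : 2 ≤ Fintype.card F := Fintype.one_lt_card
  set q := Fintype.card F with hqd
  rw [card_matrix, ← Nat.card_eq_fintype_card (α := GL (Fin n) F), Matrix.card_GL_field, ← hqd]
  -- the product
  have h1 : ∀ i : Fin n, ((q ^ n - q ^ (i : ℕ) : ℕ) : ℝ) =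
      (q : ℝ) ^ n * (1 - (1 / (q : ℝ)) ^ (n - (i : ℕ))) := by
    intro i
    have hi : (i : ℕ) ≤ n := i.2.le
    have hle : q ^ (i : ℕ) ≤ q ^ n := Nat.pow_le_pow_right (by omega) hi
    rw [Nat.cast_sub hle]
    push_cast
    have hq0 : (q : ℝ) ≠ 0 := by positivity
    have : (q : ℝ) ^ n = (q : ℝ) ^ (n - (i : ℕ)) * (q : ℝ) ^ (i : ℕ) := by
      rw [← pow_add]; congr 1; omega
    rw [mul_sub, mul_one, one_div, inv_pow, this]
    field_simp
  have h2 : ∏ i : Fin n, (1 - (1 / (q : ℝ)) ^ (n - (i : ℕ))) =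
      ∏ j ∈ Finset.range n, (1 - (1 / (q : ℝ)) ^ (j + 1)) := by
    rw [Finset.prod_range]
    refine Fintype.prod_equiv Fin.revPerm _ _ fun i => ?_
    simp only [Fin.revPerm_apply, Fin.val_rev]
    congr 2
    omega
  have h3 : ∀ k : ℕ, 1 ≤ k → (1 / 4 : ℝ) + (1 / 2) ^ (k + 1) ≤
      ∏ j ∈ Finset.range k, (1 - (1 / (q : ℝ)) ^ (j + 1)) := by
    intro k hk
    have hq1 : (1 / (q : ℝ)) ≤ 1 / 2 := by
      apply one_div_le_one_div_of_le (by norm_num)
      exact_mod_cast hq
    have hq2 : 0 ≤ (1 / (q : ℝ)) := by positivity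
    induction k, hk using Nat.le_induction with
    | base =>
      simp only [Finset.range_one, Finset.prod_singleton, zero_add, pow_one]
      norm_num
      have : ((q : ℝ))⁻¹ ≤ 1 / 2 := by rwa [← one_div]
      linarith
    | succ k hk ih =>
      rw [Finset.prod_range_succ]
      have h4 : (1 / (q : ℝ)) ^ (k + 1) ≤ (1 / 2) ^ (k + 1) := pow_le_pow_left₀ hq2 hq1 _
      have h5 : (1 / 2 : ℝ) ^ (k + 1) ≤ 1 / 4 := by
        have : (1 / 2 : ℝ) ^ (k + 1) ≤ (1 / 2) ^ 2 :=
          pow_le_pow_of_le_one (by norm_num) (by norm_num) (by omega)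
        linarith [this, show ((1 / 2 : ℝ)) ^ 2 = 1 / 4 by norm_num]
      have h6 : (0 : ℝ) < (1 / 2) ^ (k + 1) := by positivity
      have h7 : (1 / 2 : ℝ) ^ (k + 1 + 1) = (1 / 2) ^ (k + 1) / 2 := by ring
      rw [h7]
      set t := (1 / 2 : ℝ) ^ (k + 1) with ht
      calc 1 / 4 + t / 2 ≤ (1 / 4 + t) * (1 - t) := by nlinarith
        _ ≤ _ := mul_le_mul ih (by linarith) (by linarith) (by
          refine le_trans ?_ ih
          positivity)
  rcases Nat.eq_zero_or_pos n with hn | hn
  · subst hn; simp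
  · have h4 : ((q ^ (n * n) : ℕ) : ℝ) ≤ 4 * ((∏ i : Fin n, (q ^ n - q ^ (i : ℕ)) : ℕ) : ℝ) := by
      push_cast [Nat.cast_prod]
      rw [Finset.prod_congr rfl fun i _ => h1 i, Finset.prod_mul_distrib, h2, Finset.prod_const,
        Finset.card_univ, Fintype.card_fin, ← pow_mul]
      have h5 := h3 n hn
      have h6 : (1 / 4 : ℝ) ≤ ∏ j ∈ Finset.range n, (1 - (1 / (q : ℝ)) ^ (j + 1)) := by
        have : (0 : ℝ) < (1 / 2) ^ (n + 1) := by positivity
        linarith
      have h7 : (0 : ℝ) < (q : ℝ) ^ (n * n) := by positivity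
      nlinarith
    exact_mod_cast h4

end Q12.MatSum
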