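import Mathlib

/-!
# Greedy covering in a fixed matrix ring
-/

namespace Q12.MatSum

open scoped Pointwise

universe u

variable {F : Type u} [Field F] {n : ℕ}

/-- an additive subgroup of `M_n(F)` which is closed under multiplication by invertible matrices
from both sides and contains a nonzero matrix is everything -/
theorem eq_top_of_GL_closed (hn : 1 ≤ n) (H : AddSubgroup (Matrix (Fin n) (Fin n) F))
    (hH : ∀ (a b : GL (Fin n) F) (h : Matrix (Fin n) (Fin n) F), h ∈ H →
      a.val * h * b.val ∈ H) (h0 : ∃ h ∈ H, h ≠ 0) : H = ⊤ := by
  classical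
  haveI : NeZero n := ⟨by omega⟩
  let M := Matrix (Fin n) (Fin n) F
  -- the additive span of the units is the whole ring
  have hspan : ∀ c : M, c ∈ AddSubgroup.closure (Set.range (Units.val : Mˣ → M)) := by
    have hmul : ∀ x y : M, x ∈ AddSubgroup.closure (Set.range (Units.val : Mˣ → M)) →
        y ∈ AddSubgroup.closure (Set.range (Units.val : Mˣ → M)) →
        x * y ∈ AddSubgroup.closure (Set.range (Units.val : Mˣ → M)) := by
      intro x y hx hy
      induction hx using AddSubgroup.closure_induction with
      | mem x hx =>
        obtain ⟨u, rfl⟩ := hx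
        induction hy using AddSubgroup.closure_induction with
        | mem y hy =>
          obtain ⟨v, rfl⟩ := hy
          exact AddSubgroup.subset_closure ⟨u * v, rfl⟩
        | zero => rw [mul_zero]; exact zero_mem _
        | add y z _ _ hy hz => rw [mul_add]; exact add_mem hy hz
        | neg y _ hy => rw [mul_neg]; exact neg_mem hy
      | zero => rw [zero_mul]; exact zero_mem _
      | add x z _ _ hx hz => rw [add_mul]; exact add_mem hx hz
      | neg x _ hx => rw [neg_mul]; exact neg_mem hx
    have hoff : ∀ (i j : Fin n) (t : F), i ≠ j →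
        Matrix.single i j t ∈ AddSubgroup.closure (Set.range (Units.val : Mˣ → M)) := by
      intro i j t hij
      have h1 : (Matrix.single i j t : M) = Matrix.transvection i j t - 1 := by
        rw [Matrix.transvection]; abel
      rw [h1]
      refine sub_mem (AddSubgroup.subset_closure ?_) (AddSubgroup.subset_closure ⟨1, rfl⟩)
      have h2 : IsUnit (Matrix.transvection i j t) := by
        rw [Matrix.isUnit_iff_isUnit_det, Matrix.det_transvection_of_ne i j hij]
        exact isUnit_one
      obtain ⟨u, hu⟩ := h2
      exact ⟨u, hu⟩
    have hdiag : ∀ (i : Fin n) (t : F),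
        Matrix.single i i t ∈ AddSubgroup.closure (Set.range (Units.val : Mˣ → M)) := by
      intro i t
      by_cases hj : ∃ j : Fin n, j ≠ i
      · obtain ⟨j, hj⟩ := hj
        have h1 : (Matrix.single i i t : M) = Matrix.single i j t * Matrix.single j i 1 := by
          rw [Matrix.single_mul_single_same, mul_one]
        rw [h1]
        exact hmul _ _ (hoff i j t hj.symm) (hoff j i 1 hj)
      · push Not at hj
        by_cases ht : t = 0
        · rw [ht, Matrix.single_zero]; exact zero_mem _
        · have h1 : (Matrix.single i i t : M) = Matrix.scalar (Fin n) t := by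
            ext a b
            rw [hj a, hj b]
            simp
          rw [h1]
          have h2 : IsUnit (Matrix.scalar (Fin n) t : M) := (isUnit_iff_ne_zero.2 ht).map _
          obtain ⟨u, hu⟩ := h2
          exact AddSubgroup.subset_closure ⟨u, hu⟩
    intro c
    rw [Matrix.matrix_eq_sum_single c]
    refine sum_mem fun i _ => sum_mem fun j _ => ?_
    by_cases hij : i = j
    · subst hij; exact hdiag i _
    · exact hoff i j _ hij
  have hleft : ∀ (c h : M), h ∈ H → c * h ∈ H := by
    intro c h hh
    induction hspan c using AddSubgroup.closure_induction with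
    | mem x hx =>
      obtain ⟨u, rfl⟩ := hx
      have := hH u 1 h hh
      simpa using this
    | zero => rw [zero_mul]; exact zero_mem _
    | add x z _ _ hx hz => rw [add_mul]; exact add_mem hx hz
    | neg x _ hx => rw [neg_mul]; exact neg_mem hx
  have hright : ∀ (c h : M), h ∈ H → h * c ∈ H := by
    intro c h hh
    induction hspan c using AddSubgroup.closure_induction with
    | mem x hx =>
      obtain ⟨u, rfl⟩ := hx
      have := hH 1 u h hh
      simpa using this
    | zero => rw [mul_zero]; exact zero_mem _
    | add x z _ _ hx hz => rw [mul_add]; exact add_mem hx hz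
    | neg x _ hx => rw [mul_neg]; exact neg_mem hx
  let I : TwoSidedIdeal M := TwoSidedIdeal.mk' (H : Set M) H.zero_mem (fun ha hb => H.add_mem ha hb)
    (fun ha => H.neg_mem ha) (fun {x y} hy => hleft x y hy) (fun {x y} hx => hright y x hx)
  have hI : I = ⊥ ∨ I = ⊤ := eq_bot_or_eq_top I
  have hmem : ∀ x, x ∈ I ↔ x ∈ H := fun x => by
    rw [TwoSidedIdeal.mem_mk']; rfl
  rcases hI with hI | hI
  · obtain ⟨h, hh, hne⟩ := h0
    exfalso
    apply hne
    have h1 : h ∈ I := (hmem h).2 hh
    rw [hI] at h1
    exact (TwoSidedIdeal.mem_bot _).1 h1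
  · rw [eq_top_iff]
    intro x _
    exact (hmem x).1 (by rw [hI]; trivial)

end Q12.MatSum
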