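import Mathlib
import Pool.Agent.Q12.MatSum.Small

/-!
# Greedy covering in a fixed finite matrix ring
-/

namespace Q12.MatSum

open scoped Pointwise

universe u

variable {F : Type u} [Field F] [Fintype F] [DecidableEq F] {n : ℕ}

/-- a proper nonempty set can be enlarged by adding a translate `a X b` with `|X| ≥ 2` -/
theorem exists_enlarge (hn : 1 ≤ n) (S X : Finset (Matrix (Fin n) (Fin n) F)) (hS : S.Nonempty)
    (hS' : S ≠ Finset.univ) (hX : 2 ≤ X.card) :
    ∃ a b : GL (Fin n) F, S.card < (S + X.image fun x => a.val * x * b.val).card := by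
  classical
  by_contra hcon
  push Not at hcon
  obtain ⟨x, hx, y, hy, hxy⟩ := Finset.one_lt_card.1 (by omega : 1 < X.card)
  have key : ∀ (a b : GL (Fin n) F) (w : Matrix (Fin n) (Fin n) F), w ∈ X →
      (a.val * w * b.val) +ᵥ S = S + X.image fun x => a.val * x * b.val := by
    intro a b w hw
    apply Finset.eq_of_subset_of_card_le
    · intro z hz
      obtain ⟨s, hs, rfl⟩ := Finset.mem_vadd_finset.1 hz
      rw [vadd_eq_add, add_comm (a.val * w * b.val) s]
      exact Finset.add_mem_add hs (Finset.mem_image_of_mem _ hw)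
    · rw [Finset.card_vadd_finset]
      exact hcon a b
  let H := AddSubgroup.closure {z | ∃ a b : GL (Fin n) F, z = a.val * (x - y) * b.val}
  have hH : H = ⊤ := by
    apply eq_top_of_GL_closed hn
    · intro a b h hh
      induction hh using AddSubgroup.closure_induction with
      | mem z hz =>
        obtain ⟨c, d, rfl⟩ := hz
        refine AddSubgroup.subset_closure ⟨a * c, d * b, ?_⟩
        simp only [Units.val_mul, Matrix.mul_assoc]
      | zero => rw [mul_zero, zero_mul]; exact zero_mem _
      | add z w _ _ hz hw => rw [mul_add, add_mul]; exact add_mem hz hw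
      | neg z _ hz => rw [mul_neg, neg_mul]; exact neg_mem hz
    · exact ⟨x - y, AddSubgroup.subset_closure ⟨1, 1, by simp⟩, sub_ne_zero.2 hxy⟩
  have hst : H ≤ AddAction.stabilizer (Matrix (Fin n) (Fin n) F) S := by
    rw [AddSubgroup.closure_le]
    rintro z ⟨a, b, rfl⟩
    rw [SetLike.mem_coe, AddAction.mem_stabilizer_iff]
    have h1 := key a b x hx
    have h2 := key a b y hy
    have h3 : (a.val * x * b.val) +ᵥ S = (a.val * y * b.val) +ᵥ S := h1.trans h2.symm
    have h4 : a.val * (x - y) * b.val = -(a.val * y * b.val) + a.val * x * b.val := by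
      rw [mul_sub, sub_mul]; abel
    rw [h4, add_vadd, h3, neg_vadd_vadd]
  obtain ⟨s0, hs0⟩ := hS
  apply hS'
  rw [Finset.eq_univ_iff_forall]
  intro z
  have h1 : z - s0 ∈ AddAction.stabilizer (Matrix (Fin n) (Fin n) F) S := hst (by
    rw [hH]; trivial)
  rw [AddAction.mem_stabilizer_iff] at h1
  rw [← h1]
  exact Finset.mem_vadd_finset.2 ⟨s0, hs0, by rw [vadd_eq_add]; abel⟩

/-- greedy covering: `ν ≥ |M_n(F)|` sets with at least two elements suffice -/
theorem greedy (hn : 1 ≤ n) (ν : ℕ) (X : Fin ν → Finset (Matrix (Fin n) (Fin n) F))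
    (hX : ∀ i, 2 ≤ (X i).card) :
    ∃ (a b : Fin ν → GL (Fin n) F) (S : Finset (Matrix (Fin n) (Fin n) F)),
      min (ν + 1) (Fintype.card (Matrix (Fin n) (Fin n) F)) ≤ S.card ∧
      ∀ z ∈ S, ∃ x : Fin ν → Matrix (Fin n) (Fin n) F, (∀ i, x i ∈ X i) ∧
        ∑ i, (a i).val * x i * (b i).val = z := by
  classical
  induction ν with
  | zero =>
    refine ⟨fun _ => 1, fun _ => 1, {0}, by simp, fun z hz => ⟨fun _ => 0, fun i => i.elim0, ?_⟩⟩
    rw [Finset.mem_singleton] at hz
    simp [hz]
  | succ ν ih =>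
    obtain ⟨a, b, S, hS, hr⟩ := ih (fun i => X i.castSucc) (fun i => hX _)
    have hSne : S.Nonempty := by
      rw [← Finset.card_pos]
      have : 0 < Fintype.card (Matrix (Fin n) (Fin n) F) := Fintype.card_pos
      omega
    obtain ⟨a', b', hab⟩ : ∃ a' b' : GL (Fin n) F,
        min (ν + 1 + 1) (Fintype.card (Matrix (Fin n) (Fin n) F)) ≤
          (S + (X (Fin.last ν)).image fun x => a'.val * x * b'.val).card := by
      by_cases hSu : S = Finset.univ
      · refine ⟨1, 1, (min_le_right _ _).trans ?_⟩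
        rw [← Finset.card_univ, ← hSu]
        have hXne : ((X (Fin.last ν)).image fun x =>
            (1 : GL (Fin n) F).val * x * (1 : GL (Fin n) F).val).Nonempty := by
          rw [Finset.image_nonempty, ← Finset.card_pos]
          have := hX (Fin.last ν)
          omega
        exact Finset.card_le_card_add_right hXne
      · obtain ⟨a', b', h⟩ := exists_enlarge hn S (X (Fin.last ν)) hSne hSu (hX _)
        refine ⟨a', b', ?_⟩
        omega
    refine ⟨Fin.snoc a a', Fin.snoc b b',
      S + (X (Fin.last ν)).image fun x => a'.val * x * b'.val, hab, ?_⟩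
    intro z hz
    obtain ⟨s, hs, w, hw, rfl⟩ := Finset.mem_add.1 hz
    obtain ⟨x', hx', rfl⟩ := Finset.mem_image.1 hw
    obtain ⟨x, hx, hxs⟩ := hr s hs
    refine ⟨Fin.snoc x x', ?_, ?_⟩
    · intro i
      refine Fin.lastCases ?_ (fun i => ?_) i
      · simpa using hx'
      · simpa using hx i
    · rw [Fin.sum_univ_castSucc]
      simp only [Fin.snoc_castSucc, Fin.snoc_last]
      rw [hxs]

end Q12.MatSum
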