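import Mathlib
import Pool.Agent.Q12.MatSum.Count

/-!
# Exponential sums over sets of matrices, averaged over the two-sided action of `GL`
-/

namespace Q12.MatSum

open Module

universe u

variable {F : Type u} [Field F] [Fintype F] [DecidableEq F] {n : ℕ}

/-- the Fourier transform of the indicator function of `X` -/
noncomputable def ft (ψ : AddChar F ℂ) (X : Finset (Matrix (Fin n) (Fin n) F))
    (m : Matrix (Fin n) (Fin n) F) : ℂ := ∑ x ∈ X, ψ (Matrix.trace (m * x))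

omit [Fintype F] [DecidableEq F] in
/-- the additive character `m ↦ ψ (tr (m y))` -/
theorem exists_char (ψ : AddChar F ℂ) (y : Matrix (Fin n) (Fin n) F) :
    ∃ χ : AddChar (Matrix (Fin n) (Fin n) F) ℂ, ∀ m, χ m = ψ (Matrix.trace (m * y)) :=
  ⟨{ toFun := fun m => ψ (Matrix.trace (m * y))
     map_zero_eq_one' := by simp
     map_add_eq_mul' := fun a b => by
      rw [Matrix.add_mul, Matrix.trace_add, AddChar.map_add_eq_mul] }, fun _ => rfl⟩

theorem sum_char {ψ : AddChar F ℂ} (hψ : ψ ≠ 1) (y : Matrix (Fin n) (Fin n) F) :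
    ∑ m : Matrix (Fin n) (Fin n) F, ψ (Matrix.trace (m * y)) =
      if y = 0 then (Fintype.card (Matrix (Fin n) (Fin n) F) : ℂ) else 0 := by
  classical
  obtain ⟨χ, hχ⟩ := exists_char ψ y
  have h1 : (χ = 0) ↔ y = 0 := by
    constructor
    · intro h
      by_contra hy
      obtain ⟨i, j, hij⟩ : ∃ i j, y i j ≠ 0 := by
        by_contra hcon
        push Not at hcon
        exact hy (Matrix.ext hcon)
      obtain ⟨t, ht⟩ := AddChar.ne_one_iff.1 hψ
      have h2 := hχ (Matrix.single j i (t * (y i j)⁻¹))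
      rw [h, Matrix.trace_single_mul] at h2
      apply ht
      rw [AddChar.zero_apply] at h2
      rw [h2]
      congr 1
      simp only [smul_eq_mul]
      field_simp
    · rintro rfl
      apply DFunLike.ext
      intro m
      rw [hχ]
      simp
  have h2 := AddChar.sum_eq_ite χ
  rw [Finset.sum_congr rfl fun m _ => (hχ m).symm, h2]
  simp only [h1]

omit [DecidableEq F] in
theorem norm_sq_ft (ψ : AddChar F ℂ) (X : Finset (Matrix (Fin n) (Fin n) F))
    (m : Matrix (Fin n) (Fin n) F) :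
    ((‖ft ψ X m‖ ^ 2 : ℝ) : ℂ) = ∑ x ∈ X, ∑ y ∈ X, ψ (Matrix.trace (m * (x - y))) := by
  have h1 : ((‖ft ψ X m‖ ^ 2 : ℝ) : ℂ) = ft ψ X m * (starRingEnd ℂ) (ft ψ X m) := by
    rw [Complex.mul_conj, Complex.normSq_eq_norm_sq]
  rw [h1, ft, map_sum, Finset.sum_mul_sum]
  refine Finset.sum_congr rfl fun x _ => Finset.sum_congr rfl fun y _ => ?_
  rw [← AddChar.map_neg_eq_conj, ← AddChar.map_add_eq_mul, Matrix.mul_sub, Matrix.trace_sub,
    sub_eq_add_neg]

theorem sum_sum_norm_sq {ψ : AddChar F ℂ} (hψ : ψ ≠ 1) (X : Finset (Matrix (Fin n) (Fin n) F))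
    (m : Matrix (Fin n) (Fin n) F) :
    ∑ A : Matrix (Fin n) (Fin n) F, ∑ B : Matrix (Fin n) (Fin n) F, ‖ft ψ X (B * m * A)‖ ^ 2 =
      (Fintype.card (Matrix (Fin n) (Fin n) F) : ℝ) ^ 2 *
        ∑ x ∈ X, ∑ y ∈ X, ((Fintype.card F : ℝ) ^ (m.rank * (x - y).rank))⁻¹ := by
  classical
  set q := Fintype.card F with hq
  set N := Fintype.card (Matrix (Fin n) (Fin n) F) with hN
  have hq0 : (q : ℂ) ≠ 0 := by
    rw [hq]; exact_mod_cast Fintype.card_ne_zero
  have key : ∀ s : Matrix (Fin n) (Fin n) F,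
      ∑ A : Matrix (Fin n) (Fin n) F, ∑ B : Matrix (Fin n) (Fin n) F,
        ψ (Matrix.trace (B * m * A * s)) = (N : ℂ) ^ 2 * ((q : ℂ) ^ (m.rank * s.rank))⁻¹ := by
    intro s
    have h1 : ∀ A : Matrix (Fin n) (Fin n) F, ∑ B : Matrix (Fin n) (Fin n) F,
        ψ (Matrix.trace (B * m * A * s)) = if m * A * s = 0 then (N : ℂ) else 0 := by
      intro A
      rw [← sum_char hψ (m * A * s)]
      refine Finset.sum_congr rfl fun B _ => ?_
      rw [Matrix.mul_assoc B m A, Matrix.mul_assoc B (m * A) s]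
    rw [Finset.sum_congr rfl fun A _ => h1 A, ← Finset.sum_filter, Finset.sum_const, nsmul_eq_mul]
    have h2 := card_annihilate m s
    rw [← card_matrix, ← hN, ← hq, Fintype.card_subtype] at h2
    have h3 : (((Finset.univ.filter fun A : Matrix (Fin n) (Fin n) F =>
        m * A * s = 0).card : ℕ) : ℂ) * (q : ℂ) ^ (m.rank * s.rank) = N := by
      exact_mod_cast h2
    have h4 : (q : ℂ) ^ (m.rank * s.rank) ≠ 0 := pow_ne_zero _ hq0
    field_simp
    linear_combination (N : ℂ) * h3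
  have h5 : ((∑ A : Matrix (Fin n) (Fin n) F, ∑ B : Matrix (Fin n) (Fin n) F,
      ‖ft ψ X (B * m * A)‖ ^ 2 : ℝ) : ℂ) =
      ((N : ℝ) ^ 2 * ∑ x ∈ X, ∑ y ∈ X, ((q : ℝ) ^ (m.rank * (x - y).rank))⁻¹ : ℝ) := by
    rw [Complex.ofReal_sum]
    rw [Finset.sum_congr rfl fun A _ => Complex.ofReal_sum _ _]
    rw [Finset.sum_congr rfl fun A _ => Finset.sum_congr rfl fun B _ => norm_sq_ft ψ X _]
    have h6 : ∑ A : Matrix (Fin n) (Fin n) F, ∑ B : Matrix (Fin n) (Fin n) F,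
        ∑ x ∈ X, ∑ y ∈ X, ψ (Matrix.trace (B * m * A * (x - y))) =
        ∑ x ∈ X, ∑ y ∈ X, ∑ A : Matrix (Fin n) (Fin n) F, ∑ B : Matrix (Fin n) (Fin n) F,
          ψ (Matrix.trace (B * m * A * (x - y))) := by
      rw [Finset.sum_congr rfl fun A _ => Finset.sum_comm, Finset.sum_comm]
      refine Finset.sum_congr rfl fun x _ => ?_
      rw [Finset.sum_congr rfl fun A _ => Finset.sum_comm, Finset.sum_comm]
    rw [h6, Finset.sum_congr rfl fun x _ => Finset.sum_congr rfl fun y _ => key (x - y)]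
    push_cast
    rw [Finset.mul_sum]
    refine Finset.sum_congr rfl fun x _ => ?_
    rw [Finset.mul_sum]
  exact_mod_cast h5

/-- the average over `GL × GL` -/
theorem sum_GL_norm_le {ψ : AddChar F ℂ} (hψ : ψ ≠ 1) (X : Finset (Matrix (Fin n) (Fin n) F))
    (m : Matrix (Fin n) (Fin n) F) :
    (∑ g : GL (Fin n) F × GL (Fin n) F, ‖ft ψ X (g.2.val * m * g.1.val)‖) ^ 2 ≤
      (Fintype.card (GL (Fin n) F × GL (Fin n) F) : ℝ) *
        ((Fintype.card (Matrix (Fin n) (Fin n) F) : ℝ) ^ 2 *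
          ∑ x ∈ X, ∑ y ∈ X, ((Fintype.card F : ℝ) ^ (m.rank * (x - y).rank))⁻¹) := by
  classical
  rw [← sum_sum_norm_sq hψ X m]
  refine (sq_sum_le_card_mul_sum_sq).trans ?_
  rw [Finset.card_univ]
  refine mul_le_mul_of_nonneg_left ?_ (Nat.cast_nonneg _)
  rw [← Fintype.sum_prod_type' (f := fun A B : Matrix (Fin n) (Fin n) F =>
    ‖ft ψ X (B * m * A)‖ ^ 2)]
  let e : GL (Fin n) F × GL (Fin n) F ↪ Matrix (Fin n) (Fin n) F × Matrix (Fin n) (Fin n) F :=
    ⟨fun g => (g.1.val, g.2.val), by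
      rintro ⟨a, b⟩ ⟨c, d⟩ h
      simp only [Prod.mk.injEq] at h
      exact Prod.ext (Units.ext h.1) (Units.ext h.2)⟩
  have h1 : ∑ g : GL (Fin n) F × GL (Fin n) F, ‖ft ψ X (g.2.val * m * g.1.val)‖ ^ 2 =
      ∑ p ∈ Finset.univ.map e, ‖ft ψ X (p.2 * m * p.1)‖ ^ 2 := by
    rw [Finset.sum_map]
    rfl
  rw [h1]
  exact Finset.sum_le_univ_sum_of_nonneg fun p => by positivity

end Q12.MatSum
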