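import Mathlib
import Pool.Agent.Q12.MatSum.Fourier

/-!
# The case of large `q ^ n`
-/

namespace Q12.MatSum

open Module

universe u

variable {F : Type u} [Field F] [Fintype F] [DecidableEq F] {n : ℕ}

omit [Fintype F] [DecidableEq F] in
theorem char_prod (ψ : AddChar F ℂ) {κ : Type*} (s : Finset κ) (f : κ → F) :
    ∏ i ∈ s, ψ (f i) = ψ (∑ i ∈ s, f i) := by
  classical
  induction s using Finset.induction_on with
  | empty => simp
  | insert a s ha ih => rw [Finset.prod_insert ha, Finset.sum_insert ha, ih,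
      AddChar.map_add_eq_mul]

/-- if no choice of the multipliers covers the matrix ring, the exponential sums are large -/
theorem large_char_sum {ψ : AddChar F ℂ} (hψ : ψ ≠ 1) {μ : ℕ}
    (X : Fin μ → Finset (Matrix (Fin n) (Fin n) F)) (a b : Fin μ → GL (Fin n) F)
    (z : Matrix (Fin n) (Fin n) F)
    (hz : ∀ x : Fin μ → Matrix (Fin n) (Fin n) F, (∀ i, x i ∈ X i) →
      ∑ i, (a i).val * x i * (b i).val ≠ z) :
    (∏ i, ((X i).card : ℝ)) ≤
      ∑ m ∈ Finset.univ.filter (fun m : Matrix (Fin n) (Fin n) F => m ≠ 0),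
        ∏ i, ‖ft ψ (X i) ((b i).val * m * (a i).val)‖ := by
  classical
  have h1 : ∑ m : Matrix (Fin n) (Fin n) F, ψ (Matrix.trace (m * (-z))) *
      ∏ i, ft ψ (X i) ((b i).val * m * (a i).val) = 0 := by
    have h2 : ∀ m : Matrix (Fin n) (Fin n) F, ψ (Matrix.trace (m * (-z))) *
        ∏ i, ft ψ (X i) ((b i).val * m * (a i).val) =
        ∑ x ∈ Fintype.piFinset X,
          ψ (Matrix.trace (m * (∑ i, (a i).val * x i * (b i).val - z))) := by
      intro m
      unfold ft
      rw [Finset.prod_univ_sum, Finset.mul_sum]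
      refine Finset.sum_congr rfl fun x _ => ?_
      have h3 : ∀ i, Matrix.trace ((b i).val * m * (a i).val * x i) =
          Matrix.trace (m * ((a i).val * x i * (b i).val)) := by
        intro i
        rw [Matrix.mul_assoc, Matrix.mul_assoc, Matrix.trace_mul_comm]
        simp only [Matrix.mul_assoc]
      rw [Finset.prod_congr rfl fun i _ => by rw [h3 i]]
      rw [char_prod, ← AddChar.map_add_eq_mul, ← Matrix.trace_sum,
        ← Matrix.trace_add, ← Finset.mul_sum, ← Matrix.mul_add]
      congr 3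
      abel
    rw [Finset.sum_congr rfl fun m _ => h2 m, Finset.sum_comm]
    refine Finset.sum_eq_zero fun x hx => ?_
    rw [sum_char hψ, if_neg]
    exact sub_ne_zero.2 (hz x (Fintype.mem_piFinset.1 hx))
  have h4 : ∑ m : Matrix (Fin n) (Fin n) F, ψ (Matrix.trace (m * (-z))) *
      ∏ i, ft ψ (X i) ((b i).val * m * (a i).val) =
      (∏ i, ((X i).card : ℂ)) +
      ∑ m ∈ Finset.univ.filter (fun m : Matrix (Fin n) (Fin n) F => m ≠ 0),
        ψ (Matrix.trace (m * (-z))) * ∏ i, ft ψ (X i) ((b i).val * m * (a i).val) := by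
    rw [← Finset.sum_filter_add_sum_filter_not Finset.univ
      (fun m : Matrix (Fin n) (Fin n) F => m = 0)]
    congr 1
    rw [Finset.sum_filter, Finset.sum_ite_eq' Finset.univ (0 : Matrix (Fin n) (Fin n) F)]
    simp [ft]
  rw [h4] at h1
  have h5 : (∏ i, ((X i).card : ℂ)) =
      -∑ m ∈ Finset.univ.filter (fun m : Matrix (Fin n) (Fin n) F => m ≠ 0),
        ψ (Matrix.trace (m * (-z))) * ∏ i, ft ψ (X i) ((b i).val * m * (a i).val) :=
    eq_neg_of_add_eq_zero_left h1
  have h6 : (∏ i, ((X i).card : ℝ)) = ‖(∏ i, ((X i).card : ℂ))‖ := by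
    rw [norm_prod]
    refine Finset.prod_congr rfl fun i _ => ?_
    rw [Complex.norm_natCast]
  rw [h6, h5, norm_neg]
  refine (norm_sum_le _ _).trans (Finset.sum_le_sum fun m _ => ?_)
  rw [norm_mul, norm_prod, AddChar.norm_apply, one_mul]

omit [DecidableEq F] in
/-- an upper bound for the average of the exponential sums -/
theorem rank_sum_le (X : Finset (Matrix (Fin n) (Fin n) F)) (r k : ℕ) :
    ∑ x ∈ X, ∑ y ∈ X, ((Fintype.card F : ℝ) ^ (r * (x - y).rank))⁻¹ ≤
      (X.card : ℝ) * (Fintype.card F : ℝ) ^ (2 * n * k) +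
        (X.card : ℝ) ^ 2 * ((Fintype.card F : ℝ) ^ (r * (k + 1)))⁻¹ := by
  classical
  set q := Fintype.card F with hq
  have hq1 : (1 : ℝ) ≤ q := by
    rw [hq]; exact_mod_cast Fintype.card_pos
  have hq0 : (0 : ℝ) < q := by linarith
  have h1 : ∀ x ∈ X, ∑ y ∈ X, ((q : ℝ) ^ (r * (x - y).rank))⁻¹ ≤
      (q : ℝ) ^ (2 * n * k) + (X.card : ℝ) * ((q : ℝ) ^ (r * (k + 1)))⁻¹ := by
    intro x _
    rw [← Finset.sum_filter_add_sum_filter_not X (fun y => (x - y).rank ≤ k)]
    refine add_le_add ?_ ?_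
    · have h2 : ∑ y ∈ X.filter (fun y => (x - y).rank ≤ k), ((q : ℝ) ^ (r * (x - y).rank))⁻¹ ≤
          ((X.filter (fun y => (x - y).rank ≤ k)).card : ℝ) := by
        rw [Finset.card_eq_sum_ones, Nat.cast_sum]
        refine Finset.sum_le_sum fun y _ => ?_
        rw [Nat.cast_one]
        exact inv_le_one_of_one_le₀ (one_le_pow₀ hq1)
      refine h2.trans ?_
      have h3 : (X.filter (fun y => (x - y).rank ≤ k)).card ≤
          Fintype.card {s : Matrix (Fin n) (Fin n) F // s.rank ≤ k} := by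
        rw [Fintype.card_subtype]
        refine Finset.card_le_card_of_injOn (fun y => x - y) ?_ ?_
        · intro y hy
          have := (Finset.mem_filter.1 hy).2
          simpa using this
        · intro y _ z _ h
          exact sub_right_injective h
      have h4 := h3.trans (card_rank_le (F := F) (n := n) k)
      exact_mod_cast h4
    · have h2 : ∑ y ∈ X.filter (fun y => ¬ (x - y).rank ≤ k), ((q : ℝ) ^ (r * (x - y).rank))⁻¹ ≤
          ∑ _y ∈ X.filter (fun y => ¬ (x - y).rank ≤ k), ((q : ℝ) ^ (r * (k + 1)))⁻¹ := by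
        refine Finset.sum_le_sum fun y hy => ?_
        have := (Finset.mem_filter.1 hy).2
        refine inv_anti₀ (pow_pos hq0 _) (pow_le_pow_right₀ hq1 ?_)
        exact Nat.mul_le_mul_left _ (by omega)
      refine h2.trans ?_
      rw [Finset.sum_const, nsmul_eq_mul]
      refine mul_le_mul_of_nonneg_right ?_ (by positivity)
      exact_mod_cast Finset.card_filter_le _ _
  refine (Finset.sum_le_sum h1).trans ?_
  rw [Finset.sum_const, nsmul_eq_mul, mul_add]
  apply le_of_eq
  ring

end Q12.MatSum
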