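import Mathlib
import Pool.Agent.Q12.MatSum.Large
import Pool.Agent.Q12.MatSum.Greedy

/-!
# Sums of twisted large sets of matrices
-/

namespace Q12.MatSum

open Module

universe u

variable {F : Type u} [Field F] [Fintype F] [DecidableEq F] {n : ℕ}

/-- the average of the exponential sum of a large set over `GL × GL` is small -/
theorem average_le {ψ : AddChar F ℂ} (hψ : ψ ≠ 1) (X : Finset (Matrix (Fin n) (Fin n) F))
    (m : Matrix (Fin n) (Fin n) F) {c : ℝ} (hc : 0 < c) (hm : 1 ≤ m.rank)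
    (hX : (Fintype.card F : ℝ) ^ (c * (n : ℝ) ^ 2) ≤ (X.card : ℝ))
    (hbig : (32 : ℝ) ≤ (Fintype.card F : ℝ) ^ (c * n / 8)) :
    ∑ g : GL (Fin n) F × GL (Fin n) F, ‖ft ψ X (g.2.val * m * g.1.val)‖ ≤
      (Fintype.card (GL (Fin n) F × GL (Fin n) F) : ℝ) * ((X.card : ℝ) *
        (Fintype.card F : ℝ) ^ (-((m.rank : ℝ) * (c * n / 16)))) := by
  classical
  have h1 := sum_GL_norm_le hψ X m
  set r := m.rank with hr
  set Q : ℝ := (Fintype.card F : ℝ) with hQ
  set G : ℝ := (Fintype.card (GL (Fin n) F × GL (Fin n) F) : ℝ) with hG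
  set N : ℝ := (Fintype.card (Matrix (Fin n) (Fin n) F) : ℝ) with hN
  have hQ1 : 1 < Q := by rw [hQ]; exact_mod_cast Fintype.one_lt_card
  have hQ0 : 0 < Q := by linarith
  have hG0 : 0 ≤ G := by rw [hG]; positivity
  have hX0 : (0 : ℝ) ≤ X.card := by positivity
  have hrn : r ≤ n := by
    have := m.rank_le_width
    exact this
  have hN2 : N ^ 2 ≤ 16 * G := by
    have h2 : N ≤ 4 * (Fintype.card (GL (Fin n) F) : ℝ) := by
      rw [hN]
      exact_mod_cast card_le_four_mul_card_GL (F := F) (n := n)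
    have h3 : G = (Fintype.card (GL (Fin n) F) : ℝ) ^ 2 := by
      rw [hG, Fintype.card_prod]
      push_cast
      ring
    have h4 : 0 ≤ N := by rw [hN]; positivity
    rw [h3]
    nlinarith
  set S : ℝ := ∑ x ∈ X, ∑ y ∈ X, (Q ^ (r * (x - y).rank))⁻¹ with hS
  have hS0 : 0 ≤ S := Finset.sum_nonneg fun x _ => Finset.sum_nonneg fun y _ => by positivity
  -- the bound for `S`
  set k : ℕ := ⌊c * n / 4⌋₊ with hk
  have hcn : 0 ≤ c * n / 4 := by positivity
  have hk1 : (k : ℝ) ≤ c * n / 4 := Nat.floor_le hcn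
  have hk2 : c * n / 4 < (k : ℝ) + 1 := Nat.lt_floor_add_one _
  have hS1 : S ≤ (X.card : ℝ) * Q ^ (2 * n * k) + (X.card : ℝ) ^ 2 * (Q ^ (r * (k + 1)))⁻¹ :=
    rank_sum_le X r k
  have h5 : Q ^ (2 * n * k) ≤ (X.card : ℝ) * Q ^ (-((r : ℝ) * (c * n / 4))) := by
    have h6 : Q ^ (2 * n * k) = Q ^ ((2 * n * k : ℕ) : ℝ) := (Real.rpow_natCast _ _).symm
    rw [h6]
    have h7 : Q ^ ((2 * n * k : ℕ) : ℝ) ≤
        Q ^ (c * (n : ℝ) ^ 2) * Q ^ (-((r : ℝ) * (c * n / 4))) := by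
      rw [← Real.rpow_add hQ0]
      apply Real.rpow_le_rpow_of_exponent_le hQ1.le
      push_cast
      have h8 : (r : ℝ) ≤ n := by exact_mod_cast hrn
      have h9 : (0 : ℝ) ≤ n := by positivity
      have h10 : (n : ℝ) * k ≤ n * (c * n / 4) := mul_le_mul_of_nonneg_left hk1 h9
      have h11 : (r : ℝ) * (c * n / 4) ≤ n * (c * n / 4) := mul_le_mul_of_nonneg_right h8 hcn
      nlinarith
    exact h7.trans (mul_le_mul_of_nonneg_right hX (by positivity))
  have h6 : (Q ^ (r * (k + 1)))⁻¹ ≤ Q ^ (-((r : ℝ) * (c * n / 4))) := by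
    rw [Real.rpow_neg hQ0.le, ← Real.rpow_natCast]
    apply inv_anti₀ (by positivity)
    apply Real.rpow_le_rpow_of_exponent_le hQ1.le
    push_cast
    exact mul_le_mul_of_nonneg_left hk2.le (by positivity)
  have hS2 : S ≤ 2 * (X.card : ℝ) ^ 2 * Q ^ (-((r : ℝ) * (c * n / 4))) := by
    refine hS1.trans ?_
    have h7 := mul_le_mul_of_nonneg_left h5 hX0
    have h8 := mul_le_mul_of_nonneg_left h6 (sq_nonneg (X.card : ℝ))
    calc _ ≤ (X.card : ℝ) * ((X.card : ℝ) * Q ^ (-((r : ℝ) * (c * n / 4)))) +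
          (X.card : ℝ) ^ 2 * Q ^ (-((r : ℝ) * (c * n / 4))) := add_le_add h7 h8
      _ = _ := by ring
  -- assemble
  have h7 : (∑ g : GL (Fin n) F × GL (Fin n) F, ‖ft ψ X (g.2.val * m * g.1.val)‖) ^ 2 ≤
      (G * ((X.card : ℝ) * Q ^ (-((r : ℝ) * (c * n / 16))))) ^ 2 := by
    refine h1.trans ?_
    have h8 : (32 : ℝ) * Q ^ (-((r : ℝ) * (c * n / 4))) ≤ (Q ^ (-((r : ℝ) * (c * n / 16)))) ^ 2 := by
      have h9 : (Q ^ (-((r : ℝ) * (c * n / 16)))) ^ 2 =
          Q ^ ((r : ℝ) * (c * n / 8)) * Q ^ (-((r : ℝ) * (c * n / 4))) := by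
        rw [← Real.rpow_natCast, ← Real.rpow_mul hQ0.le, ← Real.rpow_add hQ0]
        congr 1
        push_cast
        ring
      rw [h9]
      apply mul_le_mul_of_nonneg_right _ (by positivity)
      refine hbig.trans ?_
      apply Real.rpow_le_rpow_of_exponent_le hQ1.le
      have h10 : (1 : ℝ) ≤ r := by exact_mod_cast hm
      have h11 : 0 ≤ c * n / 8 := by positivity
      nlinarith
    calc G * (N ^ 2 * S) ≤ G * ((16 * G) * (2 * (X.card : ℝ) ^ 2 *
          Q ^ (-((r : ℝ) * (c * n / 4))))) := by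
          apply mul_le_mul_of_nonneg_left _ hG0
          exact mul_le_mul hN2 hS2 hS0 (by positivity)
      _ = (G ^ 2 * (X.card : ℝ) ^ 2) * (32 * Q ^ (-((r : ℝ) * (c * n / 4)))) := by ring
      _ ≤ (G ^ 2 * (X.card : ℝ) ^ 2) * (Q ^ (-((r : ℝ) * (c * n / 16)))) ^ 2 :=
          mul_le_mul_of_nonneg_left h8 (by positivity)
      _ = _ := by ring
  exact le_of_sq_le_sq h7 (by positivity)

omit [Fintype F] [DecidableEq F] in
theorem eq_zero_of_rank_eq_zero {m : Matrix (Fin n) (Fin n) F} (h : m.rank = 0) : m = 0 := by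
  have h1 : LinearMap.range m.mulVecLin = ⊥ := Submodule.finrank_eq_zero.1 h
  have h2 : m.mulVecLin = 0 := LinearMap.range_eq_bot.1 h1
  apply Matrix.toLin'.injective
  rw [map_zero]
  exact h2

theorem rpow_aux {Q c : ℝ} (hQ1 : 1 < Q) {μ n r : ℕ} (hμ : 48 ≤ c * μ) :
    (Q ^ (-((r : ℝ) * (c * n / 16)))) ^ μ ≤ (Q ^ (3 * n * r))⁻¹ := by
  have hQ0 : 0 < Q := by linarith
  have h1 : (Q ^ (-((r : ℝ) * (c * n / 16)))) ^ μ = Q ^ (-((r : ℝ) * (c * n / 16)) * μ) := by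
    rw [Real.rpow_mul hQ0.le, Real.rpow_natCast]
  have h2 : (Q ^ (3 * n * r))⁻¹ = Q ^ (-((3 * n * r : ℕ) : ℝ)) := by
    rw [Real.rpow_neg hQ0.le, Real.rpow_natCast]
  rw [h1, h2]
  apply Real.rpow_le_rpow_of_exponent_le hQ1.le
  push_cast
  have h6 : (0 : ℝ) ≤ (r : ℝ) * n := by positivity
  have h7 := mul_le_mul_of_nonneg_left hμ h6
  nlinarith

omit [DecidableEq F] in
/-- the sum over the nonzero matrices -/
theorem sum_rank_lt_one (hn : 1 ≤ n) [DecidableEq (Matrix (Fin n) (Fin n) F)] :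
    ∑ m ∈ Finset.univ.filter (fun m : Matrix (Fin n) (Fin n) F => m ≠ 0),
      ((Fintype.card F : ℝ) ^ (3 * n * m.rank))⁻¹ < 1 := by
  classical
  set Q : ℝ := (Fintype.card F : ℝ) with hQ
  have hQ2 : 2 ≤ Q := by rw [hQ]; exact_mod_cast Fintype.one_lt_card
  have hQ0 : 0 < Q := by linarith
  have hmaps : ∀ m ∈ Finset.univ.filter (fun m : Matrix (Fin n) (Fin n) F => m ≠ 0),
      m.rank ∈ Finset.Icc 1 n := by
    intro m hm
    have hm0 := (Finset.mem_filter.1 hm).2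
    rw [Finset.mem_Icc]
    refine ⟨?_, m.rank_le_width⟩
    rw [Nat.one_le_iff_ne_zero]
    intro h
    exact hm0 (eq_zero_of_rank_eq_zero h)
  rw [← Finset.sum_fiberwise_of_maps_to hmaps]
  have h1 : ∀ r ∈ Finset.Icc 1 n,
      ∑ m ∈ (Finset.univ.filter (fun m : Matrix (Fin n) (Fin n) F => m ≠ 0)).filter
        (fun m => m.rank = r), (Q ^ (3 * n * m.rank))⁻¹ ≤ (1 / 2 : ℝ) ^ r := by
    intro r hr
    have hr1 := (Finset.mem_Icc.1 hr).1
    have h2 : ∑ m ∈ (Finset.univ.filter (fun m : Matrix (Fin n) (Fin n) F => m ≠ 0)).filter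
        (fun m => m.rank = r), (Q ^ (3 * n * m.rank))⁻¹ =
        (((Finset.univ.filter (fun m : Matrix (Fin n) (Fin n) F => m ≠ 0)).filter
        (fun m => m.rank = r)).card : ℝ) * (Q ^ (3 * n * r))⁻¹ := by
      rw [← nsmul_eq_mul, ← Finset.sum_const]
      refine Finset.sum_congr rfl fun m hm => ?_
      rw [(Finset.mem_filter.1 hm).2]
    rw [h2]
    have h3 : ((Finset.univ.filter (fun m : Matrix (Fin n) (Fin n) F => m ≠ 0)).filter
        (fun m => m.rank = r)).card ≤ Fintype.card F ^ (2 * n * r) := by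
      refine le_trans ?_ (card_rank_le (F := F) (n := n) r)
      rw [Fintype.card_subtype]
      refine Finset.card_le_card ?_
      intro m hm
      have := (Finset.mem_filter.1 hm).2
      simp [this]
    have h4 : (((Finset.univ.filter (fun m : Matrix (Fin n) (Fin n) F => m ≠ 0)).filter
        (fun m => m.rank = r)).card : ℝ) ≤ Q ^ (2 * n * r) := by
      rw [hQ]; exact_mod_cast h3
    have h5 : Q ^ (3 * n * r) = Q ^ (2 * n * r) * Q ^ (n * r) := by
      rw [← pow_add]; congr 1; ring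
    calc _ ≤ Q ^ (2 * n * r) * (Q ^ (3 * n * r))⁻¹ :=
          mul_le_mul_of_nonneg_right h4 (by positivity)
      _ = (Q ^ (n * r))⁻¹ := by
          rw [h5]
          have : Q ^ (2 * n * r) ≠ 0 := by positivity
          field_simp
      _ ≤ (2 ^ r)⁻¹ := by
          apply inv_anti₀ (by positivity)
          calc (2 : ℝ) ^ r ≤ 2 ^ (n * r) :=
                pow_le_pow_right₀ (by norm_num) (Nat.le_mul_of_pos_left r hn)
            _ ≤ Q ^ (n * r) := pow_le_pow_left₀ (by norm_num) hQ2 _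
      _ = (1 / 2) ^ r := by rw [one_div, inv_pow]
  refine (Finset.sum_le_sum h1).trans_lt ?_
  have h6 : ∀ k : ℕ, ∑ r ∈ Finset.Icc 1 k, (1 / 2 : ℝ) ^ r = 1 - (1 / 2) ^ k := by
    intro k
    induction k with
    | zero => simp
    | succ k ih =>
      rw [Finset.sum_Icc_succ_top (by omega), ih]
      ring
  rw [h6]
  have : (0 : ℝ) < (1 / 2) ^ n := by positivity
  linarith

/-- the covering property -/
def Covers {μ : ℕ} (X : Fin μ → Finset (Matrix (Fin n) (Fin n) F)) : Prop :=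
  ∃ a b : Fin μ → GL (Fin n) F, ∀ z : Matrix (Fin n) (Fin n) F,
    ∃ x : Fin μ → Matrix (Fin n) (Fin n) F, (∀ i, x i ∈ X i) ∧
      ∑ i, (a i).val * x i * (b i).val = z

theorem covers_large (hn : 1 ≤ n) {c : ℝ} (hc : 0 < c) {μ : ℕ} (hμ : 48 ≤ c * μ)
    (X : Fin μ → Finset (Matrix (Fin n) (Fin n) F))
    (hX : ∀ i, (Fintype.card F : ℝ) ^ (c * (n : ℝ) ^ 2) ≤ ((X i).card : ℝ))
    (hbig : (32 : ℝ) ≤ (Fintype.card F : ℝ) ^ (c * n / 8)) : Covers X := by
  classical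
  by_contra hcon
  unfold Covers at hcon
  push Not at hcon
  set ψ : AddChar F ℂ := (AddChar.FiniteField.primitiveChar_to_Complex F) with hψd
  have hψ : ψ ≠ 1 := by
    intro h
    have h1 := AddChar.FiniteField.primitiveChar_to_Complex_isPrimitive F
    rw [← hψd, h] at h1
    exact h1 one_ne_zero (by simp)
  set Q : ℝ := (Fintype.card F : ℝ) with hQ
  have hQ1 : 1 < Q := by rw [hQ]; exact_mod_cast Fintype.one_lt_card
  have hQ0 : 0 < Q := by linarith
  set G : ℝ := (Fintype.card (GL (Fin n) F × GL (Fin n) F) : ℝ) with hG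
  have hG0 : 0 < G := by rw [hG]; exact_mod_cast Fintype.card_pos
  set P : ℝ := ∏ i, ((X i).card : ℝ) with hP
  have hP0 : 0 < P := by
    rw [hP]
    refine Finset.prod_pos fun i _ => ?_
    exact lt_of_lt_of_le (by positivity) (hX i)
  have hGP : 0 < G ^ μ * P := mul_pos (pow_pos hG0 _) hP0
  -- sum over all multipliers
  have h1 : ∑ _g : Fin μ → GL (Fin n) F × GL (Fin n) F, P ≤
      ∑ g : Fin μ → GL (Fin n) F × GL (Fin n) F,
      ∑ m ∈ Finset.univ.filter (fun m : Matrix (Fin n) (Fin n) F => m ≠ 0),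
        ∏ i, ‖ft ψ (X i) ((g i).2.val * m * (g i).1.val)‖ := by
    refine Finset.sum_le_sum fun g _ => ?_
    obtain ⟨z, hz⟩ := hcon (fun i => (g i).1) (fun i => (g i).2)
    exact large_char_sum hψ X (fun i => (g i).1) (fun i => (g i).2) z hz
  have h2 : ∑ _g : Fin μ → GL (Fin n) F × GL (Fin n) F, P = G ^ μ * P := by
    rw [Finset.sum_const, nsmul_eq_mul, Finset.card_univ, Fintype.card_fun, Fintype.card_fin]
    push_cast
    rfl
  have h3 : ∑ g : Fin μ → GL (Fin n) F × GL (Fin n) F,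
      ∑ m ∈ Finset.univ.filter (fun m : Matrix (Fin n) (Fin n) F => m ≠ 0),
        ∏ i, ‖ft ψ (X i) ((g i).2.val * m * (g i).1.val)‖ =
      ∑ m ∈ Finset.univ.filter (fun m : Matrix (Fin n) (Fin n) F => m ≠ 0),
        ∏ i, ∑ g : GL (Fin n) F × GL (Fin n) F, ‖ft ψ (X i) (g.2.val * m * g.1.val)‖ := by
    rw [Finset.sum_comm]
    refine Finset.sum_congr rfl fun m _ => ?_
    rw [Finset.prod_univ_sum, Fintype.piFinset_univ]
  have h4 : ∀ m ∈ Finset.univ.filter (fun m : Matrix (Fin n) (Fin n) F => m ≠ 0),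
      ∏ i, ∑ g : GL (Fin n) F × GL (Fin n) F, ‖ft ψ (X i) (g.2.val * m * g.1.val)‖ ≤
      (G ^ μ * P) * (Q ^ (3 * n * m.rank))⁻¹ := by
    intro m hm
    have hm0 := (Finset.mem_filter.1 hm).2
    have hm1 : 1 ≤ m.rank := by
      rw [Nat.one_le_iff_ne_zero]
      intro h
      exact hm0 (eq_zero_of_rank_eq_zero h)
    have h5 : ∏ i, ∑ g : GL (Fin n) F × GL (Fin n) F, ‖ft ψ (X i) (g.2.val * m * g.1.val)‖ ≤
        ∏ i, (G * (((X i).card : ℝ) * Q ^ (-((m.rank : ℝ) * (c * n / 16))))) := by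
      refine Finset.prod_le_prod (fun i _ => ?_) fun i _ => ?_
      · exact Finset.sum_nonneg fun g _ => norm_nonneg _
      · exact average_le hψ (X i) m hc hm1 (hX i) hbig
    have h6 : ∀ t : ℝ, ∏ i, (G * (((X i).card : ℝ) * t)) = (G ^ μ * P) * t ^ μ := by
      intro t
      rw [Finset.prod_mul_distrib, Finset.prod_mul_distrib, Finset.prod_const, Finset.prod_const,
        Finset.card_univ, Fintype.card_fin, ← hP, mul_assoc]
    rw [h6] at h5
    have h7 : (Q ^ (-((m.rank : ℝ) * (c * n / 16)))) ^ μ ≤ (Q ^ (3 * n * m.rank))⁻¹ :=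
      rpow_aux hQ1 hμ
    exact h5.trans (mul_le_mul_of_nonneg_left h7 hGP.le)
  have h8 : G ^ μ * P ≤ (G ^ μ * P) *
      ∑ m ∈ Finset.univ.filter (fun m : Matrix (Fin n) (Fin n) F => m ≠ 0),
        (Q ^ (3 * n * m.rank))⁻¹ := by
    rw [Finset.mul_sum, ← h2]
    refine h1.trans ?_
    rw [h3]
    rw [h2]
    exact Finset.sum_le_sum h4
  have h9 := sum_rank_lt_one (F := F) hn
  have h10 : 0 < G ^ μ * P := hGP
  have h11 : (G ^ μ * P) *
      ∑ m ∈ Finset.univ.filter (fun m : Matrix (Fin n) (Fin n) F => m ≠ 0),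
        (Q ^ (3 * n * m.rank))⁻¹ < (G ^ μ * P) * 1 := mul_lt_mul_of_pos_left h9 h10
  linarith

/-- sums of boundedly many twisted large sets cover the matrix ring -/
theorem covers_main {c : ℝ} (hc : 0 < c) : ∃ μ : ℕ, ∀ (F : Type u) [Field F] [Fintype F] (n : ℕ),
    1 ≤ n → ∀ X : Fin μ → Finset (Matrix (Fin n) (Fin n) F),
      (∀ i, (Fintype.card F : ℝ) ^ (c * (n : ℝ) ^ 2) ≤ ((X i).card : ℝ)) → Covers X := by
  classical
  set R : ℝ := (32 : ℝ) ^ (8 / c) with hR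
  have hR1 : 1 ≤ R := Real.one_le_rpow (by norm_num) (by positivity)
  obtain ⟨μ, hμ1, hμ2⟩ : ∃ μ : ℕ, 48 / c ≤ (μ : ℝ) ∧ ⌈R ^ R⌉₊ ≤ μ :=
    ⟨max ⌈48 / c⌉₊ ⌈R ^ R⌉₊, (Nat.le_ceil _).trans (by exact_mod_cast le_max_left _ _),
      le_max_right _ _⟩
  refine ⟨μ, ?_⟩
  intro F _ _ n hn X hX
  have hμ : 48 ≤ c * μ := by
    rw [div_le_iff₀ hc] at hμ1
    linarith
  have hQ1 : (1 : ℝ) < (Fintype.card F : ℝ) := by exact_mod_cast Fintype.one_lt_card
  have hn1 : (1 : ℝ) ≤ n := by exact_mod_cast hn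
  by_cases hbig : (32 : ℝ) ≤ (Fintype.card F : ℝ) ^ (c * n / 8)
  · exact covers_large hn hc hμ X hX hbig
  · push Not at hbig
    set Q : ℝ := (Fintype.card F : ℝ) with hQ
    have hQ0 : 0 < Q := by linarith
    have h1 : Q ^ (n : ℝ) < R := by
      have h2 : (Q ^ (c * n / 8)) ^ (8 / c) < (32 : ℝ) ^ (8 / c) :=
        Real.rpow_lt_rpow (by positivity) hbig (by positivity)
      rw [← Real.rpow_mul hQ0.le] at h2
      have h3 : c * n / 8 * (8 / c) = n := by field_simp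
      rwa [h3] at h2
    have h2 : (n : ℝ) < R := by
      refine lt_of_le_of_lt ?_ h1
      rw [Real.rpow_natCast]
      have h3 : n < 2 ^ n := Nat.lt_two_pow_self
      have h4 : (2 : ℝ) ≤ Q := by rw [hQ]; exact_mod_cast Fintype.one_lt_card
      calc (n : ℝ) ≤ (2 : ℝ) ^ n := by exact_mod_cast h3.le
        _ ≤ Q ^ n := pow_le_pow_left₀ (by norm_num) h4 n
    have h3 : (Fintype.card (Matrix (Fin n) (Fin n) F) : ℝ) ≤ R ^ R := by
      rw [card_matrix]
      push_cast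
      rw [← hQ, pow_mul]
      calc (Q ^ n) ^ n ≤ R ^ n := by
            apply pow_le_pow_left₀ (by positivity)
            rw [← Real.rpow_natCast]
            exact h1.le
        _ = R ^ (n : ℝ) := (Real.rpow_natCast _ _).symm
        _ ≤ R ^ R := Real.rpow_le_rpow_of_exponent_le hR1 h2.le
    have h4 : Fintype.card (Matrix (Fin n) (Fin n) F) ≤ μ := by
      have h5 : (Fintype.card (Matrix (Fin n) (Fin n) F) : ℝ) ≤ ((⌈R ^ R⌉₊ : ℕ) : ℝ) :=
        h3.trans (Nat.le_ceil _)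
      have h6 : Fintype.card (Matrix (Fin n) (Fin n) F) ≤ ⌈R ^ R⌉₊ := by exact_mod_cast h5
      exact h6.trans hμ2
    have hX2 : ∀ i, 2 ≤ (X i).card := by
      intro i
      have h5 : (1 : ℝ) < Q ^ (c * (n : ℝ) ^ 2) :=
        Real.one_lt_rpow hQ1 (by positivity)
      have h6 : (1 : ℝ) < ((X i).card : ℝ) := lt_of_lt_of_le h5 (hX i)
      exact_mod_cast h6
    obtain ⟨a, b, S, hS, hr⟩ := greedy hn μ X hX2
    refine ⟨a, b, fun z => hr z ?_⟩
    have h5 : S = Finset.univ := by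
      rw [← Finset.card_eq_iff_eq_univ]
      apply le_antisymm (Finset.card_le_univ _)
      omega
    rw [h5]
    exact Finset.mem_univ _

end Q12.MatSum
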